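import Pool.Agent.TH939.BirchSeg

/-!
# A common point of `s` classes and a segment meeting all classes

For every set `R` of `(m - 1) d + s` points of `ℝ ^ d`, `1 ≤ s ≤ m`, and every point `O` outside its hull
there is a partition of `R` into `m` classes such that `s` of the hulls have a common point `u` and all
`m` hulls meet the segment `[O, u]`. The case `s = m` is Tverberg's theorem.
-/

set_option autoImplicit false

namespace Pool.Agent.Results.MP_daa8d5_co.CommonPointAndSegment

/-- Let `1 ≤ s ≤ m`, let `R` be a set of at least `(m - 1) d + s` points of `ℝ ^ d` and `O` a point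
outside its convex hull. There is a colouring of `R` with `m` colours such that the hulls of `s` of the
colour classes have a common point `u` and the hulls of all `m` classes meet the segment `[O, u]`. -/
theorem result (d m s : ℕ) (hs : 1 ≤ s) (hsm : s ≤ m) (R : Finset (EuclideanSpace ℝ (Fin d)))
    (hR : (m - 1) * d + s ≤ R.card) (O : EuclideanSpace ℝ (Fin d))
    (hO : O ∉ convexHull ℝ (R : Set (EuclideanSpace ℝ (Fin d)))) :
    ∃ (c : EuclideanSpace ℝ (Fin d) → Fin m) (T : Finset (Fin m))
      (u : EuclideanSpace ℝ (Fin d)), T.card = s ∧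
      (∀ i ∈ T, u ∈ convexHull ℝ {x | x ∈ R ∧ c x = i}) ∧
      ∀ j : Fin m, (segment ℝ O u ∩ convexHull ℝ {x | x ∈ R ∧ c x = j}).Nonempty := by
  obtain ⟨c, T, u, hT, hu, hseg⟩ := Pool.Agent.TH939.BirchSeg.core m (m - s) (by omega) R O hO
    (by
      have : (m - 1) * (d + 1) = (m - 1) * d + (m - 1) := by ring
      omega)
  obtain ⟨T', hT', hcard⟩ := Finset.exists_subset_card_eq (s := T) (n := s) (by omega)
  refine ⟨c, T', u, hcard, fun i hi => hu i (hT' hi), fun j => ?_⟩
  obtain ⟨y, hy1, hy2⟩ := hseg j
  exact ⟨y, hy1, hy2⟩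

end Pool.Agent.Results.MP_daa8d5_co.CommonPointAndSegment
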