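import Pool.Agent.TH939.BirchNear

/-!
# Birch's number of points suffices when `t` of the points lie in one cell

Birch's question asks whether `(m - 1) d + t + 1` points of `ℝ ^ d` always have a partition into `m`
classes such that the hulls of `t` of the classes meet the hulls of all classes. Here this is proved
for all `d`, `m`, `t` when `t` of the points lie in one cell, outside the hull of the other points, of
the arrangement of the hyperplanes spanned by the other points.

*The proof.* In Sarkaria's tensor argument for `(x - p, 1)`, `x ∈ R`, one adds `m - 1` vectors `(0, -1)`.
Then `(m - 1) d + 1` points suffice; a class without such a vector contains the common point `u`, every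
other class contains a point of `[p, u]`. Ordering the classes along the segment, the hull of `p` and a
class meets all earlier classes. In general position this persists, for each class separately, while
`p` moves in its cell; the `t` points are added to the last `t` classes.
-/

set_option autoImplicit false

namespace Pool.Agent.Results.MP_daa8d5_co.PointsInOneCell

open Pool.Agent.Helper873.Birch Pool.Agent.TH939.BirchRob

/-- Let `1 ≤ t < m`, let `R` have at least `(m - 1) d + 1` points and `P` exactly `t` points, let `p` be
a point outside the hull of `R`, and suppose that for every `x ∈ P` and every `q` in the segment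
`[p, x]` the point `q` is not in `R` and `R ∪ {q}` is in general position. Then `R ∪ P` has a `t`-good
partition into `m` classes. -/
theorem result (d m t : ℕ) (ht : 1 ≤ t) (htm : t < m)
    (R P : Finset (EuclideanSpace ℝ (Fin d))) (hR : (m - 1) * d + 1 ≤ R.card) (hP : P.card = t)
    (p : EuclideanSpace ℝ (Fin d)) (hp : p ∉ convexHull ℝ (R : Set (EuclideanSpace ℝ (Fin d))))
    (hcell : ∀ x ∈ P, ∀ q ∈ segment ℝ p x, q ∉ R ∧ GenPos (insert q R)) :
    TGood (R ∪ P) m t :=
  Pool.Agent.TH939.BirchNear.cell m t htm R P hR hP p hp hcell

end Pool.Agent.Results.MP_daa8d5_co.PointsInOneCell
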